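import Pool.Agent.V11330.PE.Swap

set_option autoImplicit false

open Set Filter Topology MeasureTheory ProbabilityTheory
open scoped NNReal ENNReal

namespace Pool.Agent.Results.MP_bd876b_pr.EntropyOscillates

open Pool.Agent.V11330.PE

/-- The relative order of `n` points of the plane: list the points by increasing first coordinate
and record the relative order of their second coordinates (`pattern z k` is the rank of the second
coordinate of the `k`-th point from the left). -/
noncomputable def pattern {n : ℕ} (z : Fin n → ℝ × ℝ) : Equiv.Perm (Fin n) :=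
  (Tuple.sort ((fun i => (z i).2) ∘ Tuple.sort (fun i => (z i).1)))⁻¹

/-- The sampling entropy `H_n(μ)`: the Shannon entropy (natural logarithm) of the relative order of
`n` independent points with law `μ`. -/
noncomputable def samplingEntropy (μ : Measure (ℝ × ℝ)) (n : ℕ) : ℝ :=
  ∑ π : Equiv.Perm (Fin n),
    Real.negMulLog ((Measure.pi fun _ : Fin n => μ).real {z | pattern z = π})

/-- The left end of the column of level `n` with column digits `w`. -/
noncomputable def columnOf {d n : ℕ} (w : Fin n → Fin d) : ℝ :=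
  ∑ k : Fin n, ((w k : ℕ) : ℝ) / (d : ℝ) ^ ((k : ℕ) + 1)

/-- The digits of the row of the square with column digits `w`, when the refinement step in the
square with column digits `v` uses the permutation `s v`: the `k`-th row digit is obtained by
applying the permutation of the ancestor square of level `k` to the `k`-th column digit. -/
def rowDigits {d n : ℕ} (s : List (Fin d) → Equiv.Perm (Fin d)) (w : Fin n → Fin d) :
    Fin n → Fin d :=
  fun k => s (List.ofFn fun i : Fin (k : ℕ) => w (Fin.castLE k.2.le i)) (w k)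

/-- The square of side `d ^ (-n)` with column digits `w`. -/
noncomputable def square {d n : ℕ} (s : List (Fin d) → Equiv.Perm (Fin d)) (w : Fin n → Fin d) :
    Set (ℝ × ℝ) :=
  Icc (columnOf w) (columnOf w + 1 / (d : ℝ) ^ n) ×ˢ
    Icc (columnOf (rowDigits s w)) (columnOf (rowDigits s w) + 1 / (d : ℝ) ^ n)

/-- The measure `μ_n` obtained after `n` refinements: mass `d ^ (-n)` uniformly on each of the `d ^ n`
squares of level `n`. -/
noncomputable def refined {d : ℕ} (s : List (Fin d) → Equiv.Perm (Fin d)) (n : ℕ) :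
    Measure (ℝ × ℝ) :=
  ∑ w : Fin n → Fin d, ((d : ℝ≥0∞) ^ n) • (volume : Measure (ℝ × ℝ)).restrict (square s w)

/-- `μ` is the weak limit of the measures `μ_n`. -/
def IsLimit {d : ℕ} (s : List (Fin d) → Equiv.Perm (Fin d)) (μ : Measure (ℝ × ℝ)) : Prop :=
  IsProbabilityMeasure μ ∧ ∀ f : BoundedContinuousFunction (ℝ × ℝ) ℝ,
    Tendsto (fun n => ∫ z, f z ∂(refined s n)) atTop (𝓝 (∫ z, f z ∂μ))

/-- The permutations `L w` attached to the squares (words of column digits) are independent with
law `F`. -/
def IsLabelling {d : ℕ} (F : PMF (Equiv.Perm (Fin d))) {Ω : Type} [MeasurableSpace Ω]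
    (P : Measure Ω) (L : List (Fin d) → Ω → Equiv.Perm (Fin d)) : Prop :=
  (∀ w σ, MeasurableSet {ω | L w ω = σ}) ∧
  ∀ (W : Finset (List (Fin d))) (e : List (Fin d) → Equiv.Perm (Fin d)),
    P {ω | ∀ w ∈ W, L w ω = e w} = ∏ w ∈ W, F (e w)

lemma sum_digits {d : ℕ} (hd : 2 ≤ d) (t : ℕ → Fin d) (n : ℕ) :
    columnOf (fun k : Fin n => t k) ≤ dval t ∧ dval t ≤ columnOf (fun k : Fin n => t k) +
      1 / (d : ℝ) ^ n := by
  have h1 := (summable_dval hd t).sum_add_tsum_nat_add n
  have h2 : columnOf (fun k : Fin n => t k) =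
      ∑ k ∈ Finset.range n, ((t k : ℕ) : ℝ) / (d : ℝ) ^ (k + 1) := by
    unfold columnOf
    exact Fin.sum_univ_eq_sum_range (fun k => ((t k : ℕ) : ℝ) / (d : ℝ) ^ (k + 1)) n
  have h3 : ∑' k, ((t (k + n) : ℕ) : ℝ) / (d : ℝ) ^ (k + n + 1) =
      1 / (d : ℝ) ^ n * dval (fun k => t (k + n)) := by
    unfold dval
    rw [← tsum_mul_left]
    refine tsum_congr fun k => ?_
    rw [show k + n + 1 = n + (k + 1) by ring, pow_add]
    have hd0 : (d : ℝ) ≠ 0 := by exact_mod_cast (by omega : d ≠ 0)
    field_simp
  rw [h3, ← h2] at h1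
  have h4 := dval_nonneg (fun k => t (k + n))
  have h5 := dval_le_one hd (fun k => t (k + n))
  have h6 : (0 : ℝ) < 1 / (d : ℝ) ^ n := by
    have : (0 : ℝ) < d := by exact_mod_cast (by omega : 0 < d)
    positivity
  unfold dval at h4 h5 ⊢
  unfold dval at h1
  constructor <;> nlinarith

section limit

variable {q : ℕ}

lemma measurable_pt : Measurable fun t : ℕ → Fin (q * q) => (dval t, yval q t) :=
  measurable_dval.prodMk (measurable_yval q)

lemma square_vol {d n : ℕ} (hd : 2 ≤ d) (s : List (Fin d) → Equiv.Perm (Fin d))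
    (w : Fin n → Fin d) :
    (volume : Measure (ℝ × ℝ)).real (square s w) = 1 / (d : ℝ) ^ n * (1 / (d : ℝ) ^ n) := by
  unfold square
  have h0 : (0 : ℝ) < d := by exact_mod_cast (by omega : 0 < d)
  rw [Measure.volume_eq_prod, measureReal_def, Measure.prod_prod, Real.volume_Icc, Real.volume_Icc,
    add_sub_cancel_left, add_sub_cancel_left, ENNReal.toReal_mul, ENNReal.toReal_ofReal]
  positivity

lemma square_vol_ne {d n : ℕ} (s : List (Fin d) → Equiv.Perm (Fin d))
    (w : Fin n → Fin d) : (volume : Measure (ℝ × ℝ)) (square s w) ≠ ⊤ := by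
  unfold square
  rw [Measure.volume_eq_prod, Measure.prod_prod, Real.volume_Icc, Real.volume_Icc]
  exact ENNReal.mul_ne_top ENNReal.ofReal_ne_top ENNReal.ofReal_ne_top

lemma integral_refined {d : ℕ} [NeZero d] (hd : 2 ≤ d) (s : List (Fin d) → Equiv.Perm (Fin d))
    (n : ℕ) (f : BoundedContinuousFunction (ℝ × ℝ) ℝ) :
    ∫ z, f z ∂(refined s n) = ∫ t, ((d : ℝ) ^ n * (d : ℝ) ^ n) *
      ∫ z in square s (fun k : Fin n => t k), f z ∂(volume : Measure (ℝ × ℝ)) ∂(PD d) := by
  have h0 : (0 : ℝ) < d := by exact_mod_cast (by omega : 0 < d)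
  have hκ : Measurable (fun (t : ℕ → Fin d) (k : Fin n) => t k) :=
    measurable_pi_lambda _ fun k => measurable_pi_apply _
  rw [← sum_eq_integral (Q := PD d) hκ (fun w => ((d : ℝ) ^ n * (d : ℝ) ^ n) *
      ∫ z in square s w, f z ∂(volume : Measure (ℝ × ℝ)))]
  unfold refined
  have hfin : ∀ w : Fin n → Fin d, IsFiniteMeasure
      ((volume : Measure (ℝ × ℝ)).restrict (square s w)) := fun w =>
    ⟨by rw [Measure.restrict_apply_univ]; exact (square_vol_ne s w).lt_top⟩
  rw [integral_finsetSum_measure]
  · refine Finset.sum_congr rfl fun w _ => ?_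
    rw [integral_smul_measure]
    have h1 : (PD d).real {t : ℕ → Fin d | (fun k : Fin n => t k) = w} = (1 / (d : ℝ)) ^ n := by
      have : {t : ℕ → Fin d | (fun k : Fin n => t k) = w} = {t | ∀ k : Fin n, t k = w k} := by
        ext t; simp [funext_iff]
      rw [this, measureReal_def, PD_cyl]
      simp
    rw [h1]
    simp only [ENNReal.toReal_pow, ENNReal.toReal_natCast, smul_eq_mul, one_div, inv_pow]
    field_simp
  · intro w _
    have := hfin w
    exact (f.integrable _).smul_measure (by simp)

lemma row_const {d n : ℕ} (σ : Equiv.Perm (Fin d)) (s : List (Fin d) → Equiv.Perm (Fin d))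
    (hs : ∀ w, s w = σ) (t : ℕ → Fin d) :
    rowDigits s (fun k : Fin n => t k) = fun k : Fin n => σ (t k) := by
  funext k
  unfold rowDigits
  rw [hs]

theorem isLimit_const {d : ℕ} [NeZero d] (hd : 2 ≤ d) (s : List (Fin d) → Equiv.Perm (Fin d))
    (σ : Equiv.Perm (Fin d)) (hs : ∀ w, s w = σ) :
    IsLimit s ((PD d).map fun t => (dval t, dval fun k => σ (t k))) := by
  have hpt : Measurable fun t : ℕ → Fin d => (dval t, dval fun k => σ (t k)) := by
    refine measurable_dval.prodMk (measurable_dval.comp (measurable_pi_lambda _ fun k => ?_))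
    have h1 : Measurable fun t : ℕ → Fin d => t k := measurable_pi_apply k
    exact (measurable_of_finite σ).comp h1
  refine ⟨Measure.isProbabilityMeasure_map hpt.aemeasurable, fun f => ?_⟩
  simp only [integral_refined hd s _ f]
  rw [integral_map hpt.aemeasurable f.continuous.aestronglyMeasurable]
  have h0 : (0 : ℝ) < (d : ℕ) := by exact_mod_cast (by omega : 0 < d)
  refine tendsto_integral_of_dominated_convergence (fun _ => ‖f‖) ?_ (integrable_const _) ?_ ?_
  · intro n
    have hκ : Measurable (fun (t : ℕ → Fin d) (k : Fin n) => t k) :=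
      measurable_pi_lambda _ fun k => measurable_pi_apply _
    exact ((measurable_of_finite (fun w : Fin n → Fin d => ((d : ℝ) ^ n * (d : ℝ) ^ n) *
      ∫ z in square s w, f z ∂(volume : Measure (ℝ × ℝ)))).comp hκ).aestronglyMeasurable
  · intro n
    refine ae_of_all _ fun t => ?_
    have h1 := norm_setIntegral_le_of_norm_le_const (μ := (volume : Measure (ℝ × ℝ)))
      (s := square s (fun k : Fin n => t k)) (f := f) (C := ‖f‖) (square_vol_ne s _).lt_top
      (fun z _ => f.norm_coe_le_norm z)
    rw [square_vol hd] at h1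
    rw [norm_mul, Real.norm_of_nonneg (by positivity : (0 : ℝ) ≤ (d : ℝ) ^ n * (d : ℝ) ^ n)]
    calc (d : ℝ) ^ n * (d : ℝ) ^ n * ‖∫ z in square s (fun k : Fin n => t k), f z‖ ≤
        (d : ℝ) ^ n * (d : ℝ) ^ n * (‖f‖ * (1 / (d : ℝ) ^ n * (1 / (d : ℝ) ^ n))) := by
          gcongr
      _ = ‖f‖ := by field_simp
  · refine ae_of_all _ fun t => ?_
    set z0 : ℝ × ℝ := (dval t, dval fun k => σ (t k)) with hz0
    rw [Metric.tendsto_atTop]
    intro ε hε
    obtain ⟨δ, hδ, hf⟩ := Metric.continuous_iff.1 f.continuous z0 (ε / 2) (by positivity)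
    have hlim : Tendsto (fun n : ℕ => (1 / (d : ℝ)) ^ n) atTop (𝓝 0) := by
      apply tendsto_pow_atTop_nhds_zero_of_lt_one (by positivity)
      rw [div_lt_one h0]
      exact_mod_cast (by omega : 1 < d)
    obtain ⟨n0, hn0⟩ := (hlim.eventually (gt_mem_nhds hδ)).exists_forall_of_atTop
    refine ⟨n0, fun n hn => ?_⟩
    have hsmall : 1 / (d : ℝ) ^ n < δ := by
      have := hn0 n hn
      rwa [one_div_pow] at this
    have hin : ∀ z ∈ square s (fun k : Fin n => t k), ‖f z - f z0‖ ≤ ε / 2 := by
      intro z hz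
      have h1 := sum_digits hd t n
      have h2 := sum_digits hd (fun k => σ (t k)) n
      unfold square at hz
      rw [row_const (σ) s hs] at hz
      obtain ⟨⟨hx1, hx2⟩, hy1, hy2⟩ := hz
      have hdist : dist z z0 < δ := by
        rw [Prod.dist_eq, max_lt_iff, Real.dist_eq, Real.dist_eq, abs_lt, abs_lt]
        have e1 : z0.1 = dval t := rfl
        have e2 : z0.2 = dval (fun k => σ (t k)) := rfl
        rw [e1, e2]
        refine ⟨⟨?_, ?_⟩, ?_, ?_⟩ <;> linarith [h1.1, h1.2, h2.1, h2.2]
      have := hf z hdist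
      rw [dist_eq_norm] at this
      exact this.le
    have hfin : IsFiniteMeasure
        ((volume : Measure (ℝ × ℝ)).restrict (square s (fun k : Fin n => t k))) :=
      ⟨by rw [Measure.restrict_apply_univ]; exact (square_vol_ne s _).lt_top⟩
    have h3 : ∫ z in square s (fun k : Fin n => t k), (f z - f z0) =
        (∫ z in square s (fun k : Fin n => t k), f z) -
          (1 / (d : ℝ) ^ n * (1 / (d : ℝ) ^ n)) * f z0 := by
      rw [integral_sub (f.integrable _) (integrable_const _), setIntegral_const, square_vol hd,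
        smul_eq_mul]
    have h4 := norm_setIntegral_le_of_norm_le_const (μ := (volume : Measure (ℝ × ℝ)))
      (s := square s (fun k : Fin n => t k)) (f := fun z => f z - f z0) (C := ε / 2)
      (square_vol_ne s _).lt_top hin
    rw [square_vol hd, h3] at h4
    have hdn : (0 : ℝ) < (d : ℝ) ^ n := by positivity
    have h5 : (d : ℝ) ^ n * (d : ℝ) ^ n *
        (∫ z in square s (fun k : Fin n => t k), f z) - f z0 =
        (d : ℝ) ^ n * (d : ℝ) ^ n * ((∫ z in square s (fun k : Fin n => t k), f z) -
          (1 / (d : ℝ) ^ n * (1 / (d : ℝ) ^ n)) * f z0) := by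
      field_simp
    rw [dist_eq_norm, h5, norm_mul,
      Real.norm_of_nonneg (by positivity : (0 : ℝ) ≤ (d : ℝ) ^ n * (d : ℝ) ^ n)]
    calc (d : ℝ) ^ n * (d : ℝ) ^ n * ‖(∫ z in square s (fun k : Fin n => t k), f z) -
          (1 / (d : ℝ) ^ n * (1 / (d : ℝ) ^ n)) * f z0‖ ≤
        (d : ℝ) ^ n * (d : ℝ) ^ n * (ε / 2 * (1 / (d : ℝ) ^ n * (1 / (d : ℝ) ^ n))) := by
          gcongr
      _ = ε / 2 := by field_simp
      _ < ε := by linarith

variable [NeZero q]

/-- the limit measure -/
noncomputable def lim (q : ℕ) [NeZero q] : Measure (ℝ × ℝ) :=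
  (PD (q * q)).map fun t => (dval t, yval q t)

instance : IsProbabilityMeasure (lim q) :=
  Measure.isProbabilityMeasure_map measurable_pt.aemeasurable

lemma samplingEntropy_lim (n : ℕ) : samplingEntropy (lim q) n =
    ent (smp (PD (q * q)) n) (fun ω => pat (fun i => dval (ω i)) (fun i => yval q (ω i))) := by
  unfold samplingEntropy ent
  refine Finset.sum_congr rfl fun π _ => ?_
  congr 1
  have h1 : (Measure.pi fun _ : Fin n => lim q) =
      (smp (PD (q * q)) n).map (fun ω i => (dval (ω i), yval q (ω i))) := by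
    have := Measure.pi_map_pi (μ := fun _ : Fin n => PD (q * q))
      (f := fun _ t => (dval t, yval q t)) (hμ := fun _ => by
        have : IsProbabilityMeasure (Measure.map (fun t => (dval t, yval q t)) (PD (q * q))) :=
          Measure.isProbabilityMeasure_map measurable_pt.aemeasurable
        infer_instance) (fun _ => measurable_pt.aemeasurable)
    exact this.symm
  have hm : Measurable (fun (ω : Fin n → ℕ → Fin (q * q)) (i : Fin n) =>
      (dval (ω i), yval q (ω i))) :=
    measurable_pi_lambda _ fun i => measurable_pt.comp (measurable_pi_apply i)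
  have hms : MeasurableSet {z : Fin n → ℝ × ℝ | pattern z = π} :=
    measurable_pat (X := fun i (z : Fin n → ℝ × ℝ) => (z i).1)
      (Y := fun i (z : Fin n → ℝ × ℝ) => (z i).2)
      (fun i => measurable_fst.comp (measurable_pi_apply i))
      (fun i => measurable_snd.comp (measurable_pi_apply i)) π
  rw [h1, measureReal_def, measureReal_def, Measure.map_apply hm hms]
  rfl

end limit

/-- **The sampling entropy per point of a random fractal permuton need not converge.** There are
`d` and a distribution `F` on the permutations of `d` points such that for the random permuton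
`μ_F` (the weak limit of the refined measures) almost surely `H_n(μ_F) / n` does not converge. -/
theorem result : ∃ (d : ℕ) (F : PMF (Equiv.Perm (Fin d))), 2 ≤ d ∧
    (∃ (Ω : Type) (_ : MeasurableSpace Ω) (P : Measure Ω)
      (L : List (Fin d) → Ω → Equiv.Perm (Fin d)), IsProbabilityMeasure P ∧ IsLabelling F P L) ∧
    ∀ (Ω : Type) [MeasurableSpace Ω] (P : Measure Ω) [IsProbabilityMeasure P]
      (L : List (Fin d) → Ω → Equiv.Perm (Fin d)), IsLabelling F P L →
      ∀ᵐ ω ∂P, (∃ μ, IsLimit (fun w => L w ω) μ) ∧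
        ∀ μ, IsLimit (fun w => L w ω) μ →
          ¬ ∃ c : ℝ, Tendsto (fun n : ℕ => samplingEntropy μ n / n) atTop (𝓝 c) := by
  classical
  set q : ℕ := 2 ^ 30 with hqdef
  have hq0 : NeZero q := ⟨by rw [hqdef]; positivity⟩
  have hq2 : 2 ≤ q := by rw [hqdef]; norm_num
  have hd2 : 2 ≤ q * q := by nlinarith
  refine ⟨q * q, PMF.pure (swp q), hd2, ?_, ?_⟩
  · refine ⟨Unit, ⊤, Measure.dirac (), fun _ _ => swp q, Measure.dirac.isProbabilityMeasure, ?_, ?_⟩
    · intro w σ
      trivial
    · intro W e
      by_cases h : ∀ w ∈ W, swp q = e w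
      · have h1 : {ω : Unit | ∀ w ∈ W, swp q = e w} = univ := by
          ext; simpa using h
        rw [h1]
        have h2 : ∏ w ∈ W, (PMF.pure (swp q)) (e w) = 1 :=
          Finset.prod_eq_one fun w hw => by rw [← h w hw]; simp
        rw [h2]
        simp
      · have h1 : {ω : Unit | ∀ w ∈ W, swp q = e w} = ∅ := by
          ext; simpa using h
        rw [h1]
        push Not at h
        obtain ⟨w, hw, hne⟩ := h
        rw [Finset.prod_eq_zero hw]
        · simp
        · simp [PMF.pure_apply, hne.symm]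
  · intro Ω _ P _ L hL
    have hae : ∀ᵐ ω ∂P, ∀ w, L w ω = swp q := by
      rw [ae_all_iff]
      intro w
      have h1 := hL.2 {w} (fun _ => swp q)
      simp only [Finset.mem_singleton, forall_eq, Finset.prod_singleton, PMF.pure_apply,
        if_true] at h1
      exact (prob_compl_eq_zero_iff (hL.1 w (swp q))).2 h1
    filter_upwards [hae] with ω hω
    have hlim : IsLimit (fun w => L w ω) (lim q) := isLimit_const hd2 (fun w => L w ω) (swp q) hω
    refine ⟨⟨_, hlim⟩, fun μ hμ => ?_⟩
    have heq : μ = lim q := by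
      have h1 := hμ.1
      refine ext_of_forall_integral_eq_of_IsFiniteMeasure fun f => ?_
      exact tendsto_nhds_unique (hμ.2 f) (hlim.2 f)
    rw [heq]
    rintro ⟨c, hc⟩
    -- the upper bound along n = d ^ m
    have hpow : Tendsto (fun m : ℕ => (q * q) ^ m) atTop atTop :=
      tendsto_pow_atTop_atTop_of_one_lt (by omega)
    have hup : c ≤ 2 * Real.log 2 + 1 := by
      refine le_of_tendsto (hc.comp hpow) (Eventually.of_forall fun m => ?_)
      simp only [Function.comp_apply]
      have hD : 0 < (q * q) ^ m := by positivity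
      have hDr : (0 : ℝ) < ((q * q) ^ m : ℕ) := by exact_mod_cast hD
      have h1 := ent_upper_bound (cells hq2 m) (by omega) ((q * q) ^ m)
      rw [samplingEntropy_lim, div_le_iff₀ hDr]
      refine h1.trans (le_of_eq ?_)
      field_simp
      ring
    have hlow : (2.9 : ℝ) ≤ c := by
      have hpow2 : Tendsto (fun m : ℕ => 2 * 1024 * (q * q) ^ m) atTop atTop :=
        tendsto_atTop_mono (fun m => Nat.le_mul_of_pos_left _ (by norm_num)) hpow
      refine ge_of_tendsto (hc.comp hpow2) (Eventually.of_forall fun m => ?_)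
      simp only [Function.comp_apply]
      have hD : 0 < (q * q) ^ m := by positivity
      have hDr : (0 : ℝ) < ((q * q) ^ m : ℕ) := by exact_mod_cast hD
      have h1 := ent_lower_bound (h := 1024) (cells hq2 m) hD (by omega) (by norm_num)
      rw [samplingEntropy_lim, le_div_iff₀ (by push_cast; positivity)]
      refine le_trans ?_ h1
      clear h1
      have h2 := Stirling.le_log_factorial_stirling (n := 1024) (by norm_num)
      generalize Real.log ((1024 : ℕ).factorial : ℝ) = F at h2 ⊢
      have h3 : Real.log (1024 : ℕ) = 10 * Real.log 2 := by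
        rw [show ((1024 : ℕ) : ℝ) = 2 ^ 10 by norm_num, Real.log_pow]; norm_num
      rw [h3] at h2
      have h4 := Real.log_two_gt_d9
      have h5 : 0 ≤ Real.log (2 * Real.pi) := Real.log_nonneg (by nlinarith [Real.pi_gt_three])
      have h6 : (6073 : ℝ) ≤ F := by
        push_cast at h2
        linarith
      have h7 : (0.99 : ℝ) ≤ 1 - 8 * ((1024 : ℕ) : ℝ) ^ 2 / (q : ℝ) - 2 / ((1024 : ℕ) : ℝ) := by
        rw [hqdef]; norm_num
      have h8 : (6073 : ℝ) * 0.99 ≤ F *
          (1 - 8 * ((1024 : ℕ) : ℝ) ^ 2 / (q : ℝ) - 2 / ((1024 : ℕ) : ℝ)) :=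
        mul_le_mul h6 h7 (by norm_num) (by linarith)
      calc (2.9 : ℝ) * ((2 * 1024 * (q * q) ^ m : ℕ) : ℝ) =
            (((q * q) ^ m : ℕ) : ℝ) * (2.9 * 2048) := by push_cast; ring
        _ ≤ (((q * q) ^ m : ℕ) : ℝ) * (F *
          (1 - 8 * ((1024 : ℕ) : ℝ) ^ 2 / (q : ℝ) - 2 / ((1024 : ℕ) : ℝ))) :=
            mul_le_mul_of_nonneg_left (le_trans (by norm_num) h8) hDr.le
    have := Real.log_two_lt_d9
    linarith

end Pool.Agent.Results.MP_bd876b_pr.EntropyOscillates
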